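import Mathlib

set_option autoImplicit false

namespace Pool.Agent.Results.MP_c69494_co.NoMinimalOrientation

/-- The vertices of `G_k`: `Sum.inl i` is the cycle vertex `x_i` (indices modulo 7) and
`Sum.inr (i, j)` is the `j`-th vertex of the complete graph `G_i` on `k - 3` vertices. -/
abbrev Vert (k : ℕ) : Type := ZMod 7 ⊕ (ZMod 7 × Fin (k - 3))

/-- The generating (not yet symmetrised) adjacency of `G_k`: `x_i ~ x_{i+1}`, two vertices of the
same `G_i`, and every vertex of `G_i` with `x_i`, `x_{i+1}`, `x_{i+3}`. -/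
def rel (k : ℕ) : Vert k → Vert k → Prop
  | Sum.inl i, Sum.inl j => j = i + 1
  | Sum.inr (i, _), Sum.inr (j, _) => i = j
  | Sum.inr (i, _), Sum.inl j => j = i ∨ j = i + 1 ∨ j = i + 3
  | Sum.inl _, Sum.inr _ => False

/-- The graph `G_k` (`k ≥ 4`): two distinct vertices are adjacent iff `rel` holds one way round. -/
def graphG (k : ℕ) : SimpleGraph (Vert k) := SimpleGraph.fromRel (rel k)

/-- `D` is an orientation of `G`: arcs run along edges, and each edge gets exactly one of its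
two directions. -/
structure IsOrientation {V : Type*} (G : SimpleGraph V) (D : V → V → Prop) : Prop where
  arc_adj : ∀ u v, D u v → G.Adj u v
  exactly_one : ∀ u v, G.Adj u v → (D u v ∧ ¬ D v u) ∨ (D v u ∧ ¬ D u v)

/-- `p` is a directed path on `n` vertices: distinct vertices, consecutive ones joined by
an arc in the forward direction. -/
def IsDirPath {V : Type*} (D : V → V → Prop) {n : ℕ} (p : Fin n → V) : Prop :=
  Function.Injective p ∧ ∀ i j : Fin n, (i : ℕ) + 1 = (j : ℕ) → D (p i) (p j)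

/-- A minimal orientation (with respect to `k`): an orientation containing exactly one directed
path on `k` vertices. -/
def IsMinimalOrientation {V : Type*} (G : SimpleGraph V) (k : ℕ) (D : V → V → Prop) : Prop :=
  IsOrientation G D ∧ ∃! p : Fin k → V, IsDirPath D p

/-! ### Witnessed labellings -/

section General

variable {V : Type*} {G : SimpleGraph V} {D : V → V → Prop}

/-- every vertex of positive label has an in-neighbour whose label is one less -/
def Wit (D : V → V → Prop) (l : V → ℕ) : Prop :=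
  ∀ v, l v ≠ 0 → ∃ u, D u v ∧ l u + 1 = l v

lemma path_below {l : V → ℕ} (hW : Wit D l) :
    ∀ (n : ℕ) (v : V), l v = n → ∃ p : ℕ → V, (∀ i, i ≤ n → l (p i) = i) ∧
      (∀ i, i < n → D (p i) (p (i + 1))) ∧ p n = v := by
  intro n
  induction n with
  | zero =>
    intro v hv
    refine ⟨fun _ => v, ?_, ?_, rfl⟩
    · intro i hi
      have : i = 0 := by omega
      subst this; exact hv
    · intro i hi; omega
  | succ n ih =>
    intro v hv
    obtain ⟨u, hu, hl⟩ := hW v (by omega)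
    obtain ⟨p, hp1, hp2, hp3⟩ := ih u (by omega)
    refine ⟨fun i => if i ≤ n then p i else v, ?_, ?_, ?_⟩
    · intro i hi
      by_cases h : i ≤ n
      · simp only [h, if_true]; exact hp1 i h
      · simp only [h, if_false]; omega
    · intro i hi
      by_cases h : i + 1 ≤ n
      · have h' : i ≤ n := by omega
        simp only [h, h', if_true]
        exact hp2 i (by omega)
      · have h' : i ≤ n := by omega
        have h'' : i = n := by omega
        simp only [h, h', if_true, if_false]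
        subst h''
        rw [hp3]; exact hu
    · simp

/-- at most one directed path on `k` vertices -/
def AtMostOne (D : V → V → Prop) (k : ℕ) : Prop :=
  ∀ p q : Fin k → V, IsDirPath D p → IsDirPath D q → p = q

lemma label_lt {l : V → ℕ} {k : ℕ} (hk : 0 < k) (hW : Wit D l) (hD : AtMostOne D k) (v : V) :
    l v < k := by
  by_contra hcon
  push Not at hcon
  obtain ⟨p, hp1, hp2, -⟩ := path_below hW (l v) v rfl
  have key := hD (fun i : Fin k => p i) (fun i : Fin k => p (i + 1)) ?_ ?_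
  · have h0 := congrFun key ⟨0, hk⟩
    have h1 := hp1 0 (by omega)
    have h2 := hp1 1 (by omega)
    simp only at h0
    rw [h0] at h1
    simp only [Nat.zero_add] at h1
    omega
  · refine ⟨?_, ?_⟩
    · intro i j hij
      have hi := hp1 i (by have := i.2; omega)
      have hj := hp1 j (by have := j.2; omega)
      simp only at hij
      rw [hij] at hi
      exact Fin.ext (by omega)
    · intro i j hij
      have := hp2 i (by have := j.2; omega)
      simp only
      rw [← hij]; exact this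
  · refine ⟨?_, ?_⟩
    · intro i j hij
      have hi := hp1 (i + 1) (by have := i.2; omega)
      have hj := hp1 (j + 1) (by have := j.2; omega)
      simp only at hij
      rw [hij] at hi
      exact Fin.ext (by omega)
    · intro i j hij
      have := hp2 (i + 1) (by have := j.2; omega)
      simp only
      rw [← hij]; exact this

/-- one step up in label along an arc -/
def Up (D : V → V → Prop) (l : V → ℕ) (a b : V) : Prop := D a b ∧ l b = l a + 1

lemma up_le {l : V → ℕ} {v w : V} (h : Relation.ReflTransGen (Up D l) v w) : l v ≤ l w := by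
  induction h with
  | refl => exact le_rfl
  | tail _ h2 ih => have := h2.2; omega

lemma up_eq {l : V → ℕ} {v w : V} (h : Relation.ReflTransGen (Up D l) v w) (he : l w = l v) :
    w = v := by
  rcases Relation.ReflTransGen.cases_tail h with h1 | ⟨a, h1, h2⟩
  · exact h1
  · have := up_le h1
    have := h2.2
    omega

lemma up_succ {l : V → ℕ} {v w : V} (h : Relation.ReflTransGen (Up D l) v w)
    (he : l w = l v + 1) : D v w := by
  rcases Relation.ReflTransGen.cases_tail h with h1 | ⟨a, h1, h2⟩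
  · subst h1; omega
  · have h3 := h2.2
    have : a = v := up_eq h1 (by omega)
    subst this
    exact h2.1

open Classical in
lemma raise [Fintype V] {l : V → ℕ} (hW : Wit D l) {u v : V} (huv : D u v) (hle : l v ≤ l u)
    (hX : ¬ Relation.ReflTransGen (Up D l) v u) :
    ∃ l' : V → ℕ, Wit D l' ∧ ∑ w, l w < ∑ w, l' w := by
  set X : V → Prop := fun w => Relation.ReflTransGen (Up D l) v w with hXdef
  refine ⟨fun w => if X w then l w + (l u + 1 - l v) else l w, ?_, ?_⟩
  · intro w hw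
    by_cases hXw : X w
    · rcases Relation.ReflTransGen.cases_tail hXw with h1 | ⟨a, h1, h2⟩
      · subst h1
        refine ⟨u, huv, ?_⟩
        have hXu : ¬ X u := hX
        simp only [hXw, hXu, if_true, if_false]
        omega
      · refine ⟨a, h2.1, ?_⟩
        have hXa : X a := h1
        have := h2.2
        simp only [hXw, hXa, if_true]
        omega
    · simp only [hXw, if_false] at hw ⊢
      obtain ⟨a, ha, hl⟩ := hW w hw
      refine ⟨a, ha, ?_⟩
      have hXa : ¬ X a := by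
        intro hXa
        exact hXw (Relation.ReflTransGen.tail hXa ⟨ha, by omega⟩)
      simp only [hXa, if_false]
      exact hl
  · apply Finset.sum_lt_sum
    · intro w _
      split_ifs <;> omega
    · refine ⟨v, Finset.mem_univ _, ?_⟩
      have hXv : X v := Relation.ReflTransGen.refl
      simp only [hXv, if_true]
      omega

lemma exists_label [Fintype V] {k : ℕ} (hk : 0 < k) (hO : IsOrientation G D) (hD : AtMostOne D k) :
    ∃ l : V → ℕ, Wit D l ∧ (∀ v, l v < k) ∧ (∀ u v, G.Adj u v → l u ≠ l v) ∧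
      (∀ u v, G.Adj u v → l v = l u + 1 → D u v) := by
  classical
  let S : Set ℕ := {s | ∃ l : V → ℕ, Wit D l ∧ ∑ w, l w = s}
  have hne : S.Nonempty := ⟨0, fun _ => 0, fun v hv => absurd rfl hv, by simp⟩
  have hbd : BddAbove S := by
    refine ⟨∑ _w : V, k, ?_⟩
    rintro s ⟨l, hl, rfl⟩
    apply Finset.sum_le_sum
    intro w _
    exact (label_lt hk hl hD w).le
  obtain ⟨l, hl, hsum⟩ := Nat.sSup_mem hne hbd
  have hmax : ∀ l' : V → ℕ, Wit D l' → ∑ w, l' w ≤ ∑ w, l w := by
    intro l' hl'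
    rw [hsum]
    exact le_csSup hbd ⟨l', hl', rfl⟩
  have key : ∀ u v, D u v → l u < l v ∨ l v + 2 ≤ l u := by
    intro u v huv
    by_contra hcon
    push Not at hcon
    obtain ⟨h1, h2⟩ := hcon
    by_cases hX : Relation.ReflTransGen (Up D l) v u
    · rcases Nat.lt_or_ge (l v) (l u) with h3 | h3
      · have h4 := up_succ hX (by omega)
        have h5 := hO.exactly_one u v (hO.arc_adj u v huv)
        rcases h5 with ⟨_, h6⟩ | ⟨_, h6⟩
        · exact h6 h4
        · exact h6 huv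
      · have h4 := up_eq hX (by omega)
        subst h4
        exact G.loopless.irrefl _ (hO.arc_adj _ _ huv)
    · obtain ⟨l', hl', hlt⟩ := raise hl huv h1 hX
      have := hmax l' hl'
      omega
  refine ⟨l, hl, label_lt hk hl hD, ?_, ?_⟩
  · intro u v huv he
    rcases hO.exactly_one u v huv with ⟨h, _⟩ | ⟨h, _⟩
    · have := key u v h; omega
    · have := key v u h; omega
  · intro u v huv he
    rcases hO.exactly_one u v huv with ⟨h, _⟩ | ⟨h, _⟩
    · exact h
    · have := key v u h; omega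

/-- `v` lies on a sequence of adjacent vertices with labels `0, 1, …, k - 1` -/
def Full (G : SimpleGraph V) (l : V → ℕ) (k : ℕ) (v : V) : Prop :=
  ∃ p : ℕ → V, (∀ i, i < k → l (p i) = i) ∧ (∀ i, i + 1 < k → G.Adj (p i) (p (i + 1))) ∧
    p (l v) = v

lemma full_unique {l : V → ℕ} {k : ℕ} (hD : AtMostOne D k)
    (hup : ∀ u v, G.Adj u v → l v = l u + 1 → D u v)
    (hlt : ∀ v, l v < k) {u v : V} (hu : Full G l k u) (hv : Full G l k v) (he : l u = l v) :
    u = v := by
  obtain ⟨p, hp1, hp2, hp3⟩ := hu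
  obtain ⟨q, hq1, hq2, hq3⟩ := hv
  have aux : ∀ r : ℕ → V, (∀ i, i < k → l (r i) = i) →
      (∀ i, i + 1 < k → G.Adj (r i) (r (i + 1))) → IsDirPath D (fun i : Fin k => r i) := by
    intro r hr1 hr2
    refine ⟨?_, ?_⟩
    · intro i j hij
      have hi := hr1 i i.2
      have hj := hr1 j j.2
      simp only at hij
      rw [hij] at hi
      exact Fin.ext (by omega)
    · intro i j hij
      simp only
      rw [← hij]
      have h3 : (i : ℕ) + 1 < k := by have := j.2; omega
      apply hup _ _ (hr2 i h3)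
      rw [hr1 _ h3, hr1 _ i.2]
  have key := hD _ _ (aux p hp1 hp2) (aux q hq1 hq2)
  have h := congrFun key ⟨l u, hlt u⟩
  simp only at h
  rw [hp3] at h
  rw [h, he, hq3]

lemma full_down {l : V → ℕ} {k : ℕ} (hO : IsOrientation G D) (hW : Wit D l) {u v : V} (hv : Full G l k v) (hadj : G.Adj u v) (he : l u + 1 = l v) :
    Full G l k u := by
  obtain ⟨p, hp1, hp2, hp3⟩ := hv
  obtain ⟨q, hq1, hq2, hq3⟩ := path_below hW (l u) u rfl
  refine ⟨fun i => if i ≤ l u then q i else p i, ?_, ?_, ?_⟩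
  · intro i hi
    by_cases h : i ≤ l u
    · simp only [h, if_true]; exact hq1 i h
    · simp only [h, if_false]; exact hp1 i hi
  · intro i hi
    by_cases h : i + 1 ≤ l u
    · have h' : i ≤ l u := by omega
      simp only [h, h', if_true]
      exact hO.arc_adj _ _ (hq2 i (by omega))
    · by_cases h' : i ≤ l u
      · have h'' : i = l u := by omega
        simp only [h, h', if_true, if_false]
        rw [h'', hq3, he, hp3]
        exact hadj
      · simp only [h, h', if_false]
        exact hp2 i hi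
  · simp only [le_refl, if_true]
    exact hq3

lemma full_top {l : V → ℕ} {k : ℕ} (hO : IsOrientation G D) (hW : Wit D l)
    {v : V} (he : l v + 1 = k) : Full G l k v := by
  obtain ⟨q, hq1, hq2, hq3⟩ := path_below hW (l v) v rfl
  refine ⟨q, ?_, ?_, hq3⟩
  · intro i hi
    exact hq1 i (by omega)
  · intro i hi
    exact hO.arc_adj _ _ (hq2 i (by omega))

end General

/-! ### The case analysis on the cycle -/

/-- The facts about labels that the case analysis uses. `a i` is the label of `x_i`, `Has i c` says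
that `G_i` has a vertex labelled `c`, `FX i` / `FG i c` say that `x_i` / the vertex of `G_i`
labelled `c` lies on the directed path. `K = k - 1` is the top label. -/
structure Sys (K : ℕ) (a : ZMod 7 → ℕ) (Has : ZMod 7 → ℕ → Prop) (FX : ZMod 7 → Prop)
    (FG : ZMod 7 → ℕ → Prop) : Prop where
  adj_ne : ∀ i, a i ≠ a (i + 1)
  has0 : ∀ i, ¬ Has i (a i)
  has1 : ∀ i, ¬ Has i (a (i + 1))
  has3 : ∀ i, ¬ Has i (a (i + 3))
  full3 : ∀ i p q r, p ≤ K → q ≤ K → r ≤ K → ¬ Has i p → ¬ Has i q → ¬ Has i r →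
    p ≠ q → p ≠ r → q ≠ r → ∀ c, c ≤ K → c ≠ p → c ≠ q → c ≠ r → Has i c
  le : ∀ i, a i ≤ K
  xg : ∀ i j s, (j = i ∨ j + 1 = i ∨ j + 3 = i) → FX i → a i = s + 1 → Has j s → FG j s
  xx : ∀ i s, FX i → a i = s + 1 → a (i + 1) = s → FX (i + 1)
  xx' : ∀ i s, FX (i + 1) → a (i + 1) = s + 1 → a i = s → FX i
  gg : ∀ j s, FG j (s + 1) → Has j s → FG j s
  gx : ∀ i j s, (j = i ∨ j + 1 = i ∨ j + 3 = i) → FG j (s + 1) → a i = s → FX i
  uGG : ∀ i j s, FG i s → FG j s → i = j
  uGX : ∀ i j s, FG i s → FX j → a j = s → False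
  uXX : ∀ i j s, FX i → FX j → a i = s → a j = s → i = j

namespace Sys

variable {K : ℕ} {a : ZMod 7 → ℕ} {Has : ZMod 7 → ℕ → Prop} {FX : ZMod 7 → Prop}
  {FG : ZMod 7 → ℕ → Prop}

lemma mem (S : Sys K a Has FX FG) {i : ZMod 7} (hK : ¬ Has i K) (h0 : a i ≠ K)
    (h1 : a (i + 1) ≠ K) (h3 : a (i + 3) ≠ K) : a (i + 3) = a i ∨ a (i + 3) = a (i + 1) := by
  by_contra hcon
  push Not at hcon
  exact S.has3 i (S.full3 i K (a i) (a (i + 1)) le_rfl (S.le _) (S.le _) hK (S.has0 i) (S.has1 i)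
    (Ne.symm h0) (Ne.symm h1) (S.adj_ne i) _ (S.le _) h3 hcon.1 hcon.2)

lemma hasOf (S : Sys K a Has FX FG) {i : ZMod 7} (hK : ¬ Has i K) (h0 : a i ≠ K)
    (h1 : a (i + 1) ≠ K) {c : ℕ} (hc : c < K) (hc0 : c ≠ a i) (hc1 : c ≠ a (i + 1)) : Has i c :=
  S.full3 i K (a i) (a (i + 1)) le_rfl (S.le _) (S.le _) hK (S.has0 i) (S.has1 i)
    (Ne.symm h0) (Ne.symm h1) (S.adj_ne i) c hc.le hc.ne hc0 hc1

lemma descend (S : Sys K a Has FX FG) {j : ZMod 7} {t c0 : ℕ} (h : FG j c0)
    (hH : ∀ c, t < c → c < c0 → Has j c) : ∀ d c, c + d = c0 → t < c → FG j c := by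
  intro d
  induction d with
  | zero => intro c hc _; have : c = c0 := by omega
            subst this; exact h
  | succ d ih =>
    intro c hc ht
    exact S.gg j c (ih (c + 1) (by omega) (by omega)) (hH c ht (by omega))

lemma descendX (S : Sys K a Has FX FG) {i j : ZMod 7} {c0 : ℕ}
    (hij : j = i ∨ j + 1 = i ∨ j + 3 = i) (h : FG j c0) (hlt : a i < c0)
    (hH : ∀ c, a i < c → c < c0 → Has j c) : FX i :=
  S.gx i j (a i) hij (S.descend h hH (c0 - (a i + 1)) (a i + 1) (by omega) (by omega)) rfl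

/-- two cliques next to `x_i` both offer the next lower label -/
lemma CC (S : Sys K a Has FX FG) {i j j' : ZMod 7} {s : ℕ}
    (hj : j = i ∨ j + 1 = i ∨ j + 3 = i) (hj' : j' = i ∨ j' + 1 = i ∨ j' + 3 = i) (hne : j ≠ j')
    (hF : FX i) (ha : a i = s + 1) (h1 : Has j s) (h2 : Has j' s) : False :=
  hne (S.uGG j j' s (S.xg i j s hj hF ha h1) (S.xg i j' s hj' hF ha h2))

/-- both cycle neighbours of `x_{i+1}` carry the next lower label -/
lemma XX (S : Sys K a Has FX FG) {i i' : ZMod 7} (hi : i' = i + 1) {s : ℕ}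
    (hF : FX i') (ha : a i' = s + 1) (h1 : a i = s) (h2 : a (i' + 1) = s) : False := by
  subst hi
  have e1 := S.xx' i s hF ha h1
  have e2 := S.xx (i + 1) s hF ha h2
  have e3 := S.uXX i (i + 1 + 1) s e1 e2 h1 h2
  have e4 : ∀ i : ZMod 7, i ≠ i + 1 + 1 := by decide
  exact e4 i e3

theorem caseA (S : Sys K a Has FX FG) (hK3 : 3 ≤ K) (hF : FX 0) (h0 : a 0 = K)
    (hne : ∀ i, i ≠ 0 → a i ≠ K) (hK : ∀ i, ¬ Has i K) : False := by
  have n1 : a 1 ≠ K := hne 1 (by decide)
  have n2 : a 2 ≠ K := hne 2 (by decide)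
  have n3 : a 3 ≠ K := hne 3 (by decide)
  have n4 : a 4 ≠ K := hne 4 (by decide)
  have n5 : a 5 ≠ K := hne 5 (by decide)
  have n6 : a 6 ≠ K := hne 6 (by decide)
  have l1 : a 1 ≤ K := S.le 1
  have l2 : a 2 ≤ K := S.le 2
  have l3 : a 3 ≤ K := S.le 3
  have l4 : a 4 ≤ K := S.le 4
  have l5 : a 5 ≤ K := S.le 5
  have l6 : a 6 ≤ K := S.le 6
  have d12 : a 1 ≠ a 2 := S.adj_ne 1
  have d23 : a 2 ≠ a 3 := S.adj_ne 2
  have d34 : a 3 ≠ a 4 := S.adj_ne 3
  have d45 : a 4 ≠ a 5 := S.adj_ne 4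
  have d56 : a 5 ≠ a 6 := S.adj_ne 5
  have m1 : a 4 = a 1 ∨ a 4 = a 2 := S.mem (i := 1) (hK 1) n1 n2 n4
  have m2 : a 5 = a 2 ∨ a 5 = a 3 := S.mem (i := 2) (hK 2) n2 n3 n5
  have m3 : a 6 = a 3 ∨ a 6 = a 4 := S.mem (i := 3) (hK 3) n3 n4 n6
  have m5 : a 1 = a 5 ∨ a 1 = a 6 := S.mem (i := 5) (hK 5) n5 n6 n1
  have H1 : ∀ c, c < K → c ≠ a 1 → c ≠ a 2 → Has 1 c :=
    fun c hc h1 h2 => S.hasOf (hK 1) n1 n2 hc h1 h2
  have H2 : ∀ c, c < K → c ≠ a 2 → c ≠ a 3 → Has 2 c :=
    fun c hc h1 h2 => S.hasOf (hK 2) n2 n3 hc h1 h2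
  have H3 : ∀ c, c < K → c ≠ a 3 → c ≠ a 4 → Has 3 c :=
    fun c hc h1 h2 => S.hasOf (hK 3) n3 n4 hc h1 h2
  have H4 : ∀ c, c < K → c ≠ a 4 → c ≠ a 5 → Has 4 c :=
    fun c hc h1 h2 => S.hasOf (hK 4) n4 n5 hc h1 h2
  have H5 : ∀ c, c < K → c ≠ a 5 → c ≠ a 6 → Has 5 c :=
    fun c hc h1 h2 => S.hasOf (hK 5) n5 n6 hc h1 h2
  have H0 : a 1 ≠ a 3 → ∀ c, c < K → c ≠ a 1 → c ≠ a 3 → Has 0 c :=
    fun h13 c hc h1 h3 => S.full3 0 K (a 1) (a 3) le_rfl l1 l3 (hK 0) (S.has1 0) (S.has3 0)
      (Ne.symm n1) (Ne.symm n3) h13 c hc.le hc.ne h1 h3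
  have H6 : a 6 ≠ a 2 → ∀ c, c < K → c ≠ a 6 → c ≠ a 2 → Has 6 c :=
    fun h62 c hc h1 h3 => S.full3 6 K (a 6) (a 2) le_rfl l6 l2 (hK 6) (S.has0 6) (S.has3 6)
      (Ne.symm n6) (Ne.symm n2) h62 c hc.le hc.ne h1 h3
  obtain ⟨s, rfl⟩ : ∃ s, K = s + 1 := ⟨K - 1, by omega⟩
  have hpat : (a 3 = a 1 ∧ a 5 = a 1 ∧ a 4 = a 2 ∧ a 6 = a 2) ∨
      (a 4 = a 1 ∧ a 6 = a 1 ∧ a 1 ≠ a 3 ∧ (a 5 = a 2 ∨ a 5 = a 3)) := by omega
  rcases hpat with ⟨e3, e5, e4, e6⟩ | ⟨e4, e6, d13, e5⟩
  · by_cases hb : a 1 = s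
    · have F1 : FX 1 := S.xx 0 s hF h0 hb
      obtain ⟨s1, hs1⟩ : ∃ s1, s = s1 + 1 := ⟨s - 1, by omega⟩
      by_cases h2 : a 2 = s1
      · have F2 : FX 2 := S.xx 1 s1 F1 (by show a 1 = _; omega) h2
        obtain ⟨s2, hs2⟩ : ∃ s2, s1 = s2 + 1 := ⟨s1 - 1, by omega⟩
        exact S.CC (i := 2) (j := 2) (j' := 1) (s := s2) (by decide) (by decide) (by decide) F2
          (by omega) (H2 _ (by omega) (by omega) (by omega)) (H1 _ (by omega) (by omega) (by omega))
      · exact S.CC (i := 1) (j := 1) (j' := 5) (s := s1) (by decide) (by decide) (by decide) F1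
          (by omega) (H1 _ (by omega) (by omega) (by omega)) (H5 _ (by omega) (by omega) (by omega))
    · by_cases ha : a 2 = s
      · have F6 : FX 6 := S.xx' 6 s hF h0 (by omega)
        obtain ⟨s1, hs1⟩ : ∃ s1, s = s1 + 1 := ⟨s - 1, by omega⟩
        by_cases h1 : a 1 = s1
        · have F5 : FX 5 := S.xx' 5 s1 F6 (by show a 6 = _; omega) (by omega)
          obtain ⟨s2, hs2⟩ : ∃ s2, s1 = s2 + 1 := ⟨s1 - 1, by omega⟩
          exact S.CC (i := 5) (j := 5) (j' := 4) (s := s2) (by decide) (by decide) (by decide) F5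
            (by omega) (H5 _ (by omega) (by omega) (by omega))
            (H4 _ (by omega) (by omega) (by omega))
        · exact S.CC (i := 6) (j := 5) (j' := 3) (s := s1) (by decide) (by decide) (by decide) F6
            (by omega) (H5 _ (by omega) (by omega) (by omega))
            (H3 _ (by omega) (by omega) (by omega))
      · have G4 : FG 4 s := S.xg 0 4 s (by decide) hF h0 (H4 _ (by omega) (by omega) (by omega))
        rcases Nat.lt_or_gt_of_ne d45 with hlt | hlt
        · have F5 : FX 5 := S.descendX (i := 5) (j := 4) (by decide) G4 (by omega)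
            (fun c hc1 hc2 => H4 c (by omega) (by omega) (by omega))
          obtain ⟨t, ht⟩ : ∃ t, a 5 = t + 1 := ⟨a 5 - 1, by omega⟩
          by_cases h : a 4 = t
          · exact S.XX (i := 4) (i' := 5) (by decide) F5 ht h (by show a 6 = _; omega)
          · exact S.CC (i := 5) (j := 5) (j' := 4) (s := t) (by decide) (by decide) (by decide) F5
              ht (H5 _ (by omega) (by omega) (by omega)) (H4 _ (by omega) (by omega) (by omega))
        · have F4 : FX 4 := S.descendX (i := 4) (j := 4) (by decide) G4 (by omega)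
            (fun c hc1 hc2 => H4 c (by omega) (by omega) (by omega))
          obtain ⟨t, ht⟩ : ∃ t, a 4 = t + 1 := ⟨a 4 - 1, by omega⟩
          by_cases h : a 5 = t
          · exact S.XX (i := 3) (i' := 4) (by decide) F4 ht (by omega) h
          · exact S.CC (i := 4) (j := 4) (j' := 3) (s := t) (by decide) (by decide) (by decide) F4
              ht (H4 _ (by omega) (by omega) (by omega)) (H3 _ (by omega) (by omega) (by omega))
  · have H0' := H0 d13
    have H6' := H6 (by omega)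
    by_cases g : a 1 = s
    · exact S.XX (i := 6) (i' := 0) (by decide) hF h0 (by omega) g
    by_cases b : a 3 = s
    · have G6 : FG 6 s := S.xg 0 6 s (by decide) hF h0 (H6' _ (by omega) (by omega) (by omega))
      rcases e5 with e5 | e5
      · exact S.CC (i := 0) (j := 6) (j' := 4) (s := s) (by decide) (by decide) (by decide) hF h0
          (H6' _ (by omega) (by omega) (by omega)) (H4 _ (by omega) (by omega) (by omega))
      · rcases Nat.lt_or_gt_of_ne d12 with hlt | hlt
        · have F2 : FX 2 := S.descendX (i := 2) (j := 6) (by decide) G6 (by omega)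
            (fun c hc1 hc2 => H6' c (by omega) (by omega) (by omega))
          obtain ⟨t, ht⟩ : ∃ t, a 2 = t + 1 := ⟨a 2 - 1, by omega⟩
          by_cases h : a 1 = t
          · have F1 : FX 1 := S.xx' 1 t F2 ht h
            have G2 : FG 2 t := S.xg 2 2 t (by decide) F2 ht
              (H2 _ (by omega) (by omega) (by omega))
            exact S.uGX 2 1 t G2 F1 h
          · exact S.CC (i := 2) (j := 1) (j' := 2) (s := t) (by decide) (by decide) (by decide) F2
              ht (H1 _ (by omega) (by omega) (by omega)) (H2 _ (by omega) (by omega) (by omega))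
        · have F6 : FX 6 := S.descendX (i := 6) (j := 6) (by decide) G6 (by omega)
            (fun c hc1 hc2 => H6' c (by omega) (by omega) (by omega))
          obtain ⟨t, ht⟩ : ∃ t, a 6 = t + 1 := ⟨a 6 - 1, by omega⟩
          exact S.CC (i := 6) (j := 5) (j' := 3) (s := t) (by decide) (by decide) (by decide) F6
            ht (H5 _ (by omega) (by omega) (by omega)) (H3 _ (by omega) (by omega) (by omega))
    by_cases c2 : a 2 = s
    · have G0 : FG 0 s := S.xg 0 0 s (by decide) hF h0 (H0' _ (by omega) (by omega) (by omega))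
      rcases e5 with e5 | e5
      · rcases Nat.lt_or_gt_of_ne d13 with hlt | hlt
        · have F3 : FX 3 := S.descendX (i := 3) (j := 0) (by decide) G0 (by omega)
            (fun c hc1 hc2 => H0' c (by omega) (by omega) (by omega))
          obtain ⟨t, ht⟩ : ∃ t, a 3 = t + 1 := ⟨a 3 - 1, by omega⟩
          by_cases h : a 4 = t
          · have F4 : FX 4 := S.xx 3 t F3 ht h
            have G2 : FG 2 t := S.xg 3 2 t (by decide) F3 ht
              (H2 _ (by omega) (by omega) (by omega))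
            exact S.uGX 2 4 t G2 F4 h
          · exact S.CC (i := 3) (j := 3) (j' := 2) (s := t) (by decide) (by decide) (by decide) F3
              ht (H3 _ (by omega) (by omega) (by omega)) (H2 _ (by omega) (by omega) (by omega))
        · have F1 : FX 1 := S.descendX (i := 1) (j := 0) (by decide) G0 (by omega)
            (fun c hc1 hc2 => H0' c (by omega) (by omega) (by omega))
          obtain ⟨t, ht⟩ : ∃ t, a 1 = t + 1 := ⟨a 1 - 1, by omega⟩
          exact S.CC (i := 1) (j := 1) (j' := 5) (s := t) (by decide) (by decide) (by decide) F1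
            ht (H1 _ (by omega) (by omega) (by omega)) (H5 _ (by omega) (by omega) (by omega))
      · exact S.CC (i := 0) (j := 0) (j' := 4) (s := s) (by decide) (by decide) (by decide) hF h0
          (H0' _ (by omega) (by omega) (by omega)) (H4 _ (by omega) (by omega) (by omega))
    · exact S.CC (i := 0) (j := 0) (j' := 6) (s := s) (by decide) (by decide) (by decide) hF h0
        (H0' _ (by omega) (by omega) (by omega)) (H6' _ (by omega) (by omega) (by omega))

theorem caseB (S : Sys K a Has FX FG) (hG : FG 0 K)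
    (hne : ∀ i, a i ≠ K) (hK : ∀ i, i ≠ 0 → ¬ Has i K) : False := by
  have n0 : a 0 ≠ K := hne 0
  have n1 : a 1 ≠ K := hne 1
  have n2 : a 2 ≠ K := hne 2
  have n3 : a 3 ≠ K := hne 3
  have n4 : a 4 ≠ K := hne 4
  have n5 : a 5 ≠ K := hne 5
  have n6 : a 6 ≠ K := hne 6
  have l0 : a 0 ≤ K := S.le 0
  have l1 : a 1 ≤ K := S.le 1
  have l2 : a 2 ≤ K := S.le 2
  have l3 : a 3 ≤ K := S.le 3
  have l4 : a 4 ≤ K := S.le 4
  have l5 : a 5 ≤ K := S.le 5
  have l6 : a 6 ≤ K := S.le 6
  have d01 : a 0 ≠ a 1 := S.adj_ne 0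
  have d12 : a 1 ≠ a 2 := S.adj_ne 1
  have d23 : a 2 ≠ a 3 := S.adj_ne 2
  have d34 : a 3 ≠ a 4 := S.adj_ne 3
  have d45 : a 4 ≠ a 5 := S.adj_ne 4
  have d56 : a 5 ≠ a 6 := S.adj_ne 5
  have d60 : a 6 ≠ a 0 := S.adj_ne 6
  have m1 : a 4 = a 1 ∨ a 4 = a 2 := S.mem (i := 1) (hK 1 (by decide)) n1 n2 n4
  have m2 : a 5 = a 2 ∨ a 5 = a 3 := S.mem (i := 2) (hK 2 (by decide)) n2 n3 n5
  have m3 : a 6 = a 3 ∨ a 6 = a 4 := S.mem (i := 3) (hK 3 (by decide)) n3 n4 n6
  have m4 : a 0 = a 4 ∨ a 0 = a 5 := S.mem (i := 4) (hK 4 (by decide)) n4 n5 n0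
  have m5 : a 1 = a 5 ∨ a 1 = a 6 := S.mem (i := 5) (hK 5 (by decide)) n5 n6 n1
  have m6 : a 2 = a 6 ∨ a 2 = a 0 := S.mem (i := 6) (hK 6 (by decide)) n6 n0 n2
  obtain ⟨e2, e4, e5, e6⟩ : a 2 = a 0 ∧ a 4 = a 1 ∧ a 5 = a 0 ∧ a 6 = a 1 := by omega
  have d03 : a 0 ≠ a 3 := by omega
  have d13 : a 1 ≠ a 3 := by omega
  have H1 : ∀ c, c < K → c ≠ a 1 → c ≠ a 2 → Has 1 c :=
    fun c hc h1 h2 => S.hasOf (hK 1 (by decide)) n1 n2 hc h1 h2
  have H2 : ∀ c, c < K → c ≠ a 2 → c ≠ a 3 → Has 2 c :=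
    fun c hc h1 h2 => S.hasOf (hK 2 (by decide)) n2 n3 hc h1 h2
  have H3 : ∀ c, c < K → c ≠ a 3 → c ≠ a 4 → Has 3 c :=
    fun c hc h1 h2 => S.hasOf (hK 3 (by decide)) n3 n4 hc h1 h2
  have H4 : ∀ c, c < K → c ≠ a 4 → c ≠ a 5 → Has 4 c :=
    fun c hc h1 h2 => S.hasOf (hK 4 (by decide)) n4 n5 hc h1 h2
  have H5 : ∀ c, c < K → c ≠ a 5 → c ≠ a 6 → Has 5 c :=
    fun c hc h1 h2 => S.hasOf (hK 5 (by decide)) n5 n6 hc h1 h2
  have H6 : ∀ c, c < K → c ≠ a 6 → c ≠ a 0 → Has 6 c :=
    fun c hc h1 h2 => S.hasOf (hK 6 (by decide)) n6 n0 hc h1 h2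
  have H0 : ∀ c, c ≤ K → c ≠ a 0 → c ≠ a 1 → c ≠ a 3 → Has 0 c :=
    fun c hc h0 h1 h3 => S.full3 0 (a 0) (a 1) (a 3) l0 l1 l3 (S.has0 0) (S.has1 0) (S.has3 0)
      d01 d03 d13 c hc h0 h1 h3
  have hmax : (a 1 < a 0 ∧ a 3 < a 0) ∨ (a 0 < a 1 ∧ a 3 < a 1) ∨ (a 0 < a 3 ∧ a 1 < a 3) := by
    omega
  rcases hmax with ⟨t1, t2⟩ | ⟨t1, t2⟩ | ⟨t1, t2⟩
  · have F0 : FX 0 := S.descendX (i := 0) (j := 0) (by decide) hG (by omega)
      (fun c hc1 hc2 => H0 c (by omega) (by omega) (by omega) (by omega))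
    obtain ⟨t, ht⟩ : ∃ t, a 0 = t + 1 := ⟨a 0 - 1, by omega⟩
    by_cases h : a 1 = t
    · exact S.XX (i := 6) (i' := 0) (by decide) F0 ht (by omega) h
    · exact S.CC (i := 0) (j := 6) (j' := 4) (s := t) (by decide) (by decide) (by decide) F0
        ht (H6 _ (by omega) (by omega) (by omega)) (H4 _ (by omega) (by omega) (by omega))
  · have F1 : FX 1 := S.descendX (i := 1) (j := 0) (by decide) hG (by omega)
      (fun c hc1 hc2 => H0 c (by omega) (by omega) (by omega) (by omega))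
    obtain ⟨t, ht⟩ : ∃ t, a 1 = t + 1 := ⟨a 1 - 1, by omega⟩
    by_cases h : a 0 = t
    · exact S.XX (i := 0) (i' := 1) (by decide) F1 ht h (by show a 2 = _; omega)
    · exact S.CC (i := 1) (j := 1) (j' := 5) (s := t) (by decide) (by decide) (by decide) F1
        ht (H1 _ (by omega) (by omega) (by omega)) (H5 _ (by omega) (by omega) (by omega))
  · have F3 : FX 3 := S.descendX (i := 3) (j := 0) (by decide) hG (by omega)
      (fun c hc1 hc2 => H0 c (by omega) (by omega) (by omega) (by omega))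
    obtain ⟨t, ht⟩ : ∃ t, a 3 = t + 1 := ⟨a 3 - 1, by omega⟩
    by_cases h : a 4 = t
    · have F4 : FX 4 := S.xx 3 t F3 ht h
      have G2 : FG 2 t := S.xg 3 2 t (by decide) F3 ht
        (H2 _ (by omega) (by omega) (by omega))
      exact S.uGX 2 4 t G2 F4 h
    by_cases h' : a 2 = t
    · have F2 : FX 2 := S.xx' 2 t F3 ht h'
      have G3 : FG 3 t := S.xg 3 3 t (by decide) F3 ht
        (H3 _ (by omega) (by omega) (by omega))
      exact S.uGX 3 2 t G3 F2 h'
    · exact S.CC (i := 3) (j := 3) (j' := 2) (s := t) (by decide) (by decide) (by decide) F3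
        ht (H3 _ (by omega) (by omega) (by omega)) (H2 _ (by omega) (by omega) (by omega))

theorem caseC (S : Sys K a Has FX FG) (n : ∀ i, a i ≠ K) (hK : ∀ i, ¬ Has i K) : False := by
  have d01 : a 0 ≠ a 1 := S.adj_ne 0
  have d12 : a 1 ≠ a 2 := S.adj_ne 1
  have d23 : a 2 ≠ a 3 := S.adj_ne 2
  have d34 : a 3 ≠ a 4 := S.adj_ne 3
  have d45 : a 4 ≠ a 5 := S.adj_ne 4
  have d56 : a 5 ≠ a 6 := S.adj_ne 5
  have d60 : a 6 ≠ a 0 := S.adj_ne 6
  have m0 : a 3 = a 0 ∨ a 3 = a 1 := S.mem (i := 0) (hK 0) (n 0) (n 1) (n 3)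
  have m1 : a 4 = a 1 ∨ a 4 = a 2 := S.mem (i := 1) (hK 1) (n 1) (n 2) (n 4)
  have m2 : a 5 = a 2 ∨ a 5 = a 3 := S.mem (i := 2) (hK 2) (n 2) (n 3) (n 5)
  have m3 : a 6 = a 3 ∨ a 6 = a 4 := S.mem (i := 3) (hK 3) (n 3) (n 4) (n 6)
  have m4 : a 0 = a 4 ∨ a 0 = a 5 := S.mem (i := 4) (hK 4) (n 4) (n 5) (n 0)
  have m5 : a 1 = a 5 ∨ a 1 = a 6 := S.mem (i := 5) (hK 5) (n 5) (n 6) (n 1)
  have m6 : a 2 = a 6 ∨ a 2 = a 0 := S.mem (i := 6) (hK 6) (n 6) (n 0) (n 2)
  omega

end Sys

/-! ### Assembling -/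

lemma adj_xx (k : ℕ) (i : ZMod 7) : (graphG k).Adj (Sum.inl i) (Sum.inl (i + 1)) := by
  have h : ∀ i : ZMod 7, i ≠ i + 1 := by decide
  refine (SimpleGraph.fromRel_adj _ _ _).2 ⟨?_, Or.inl ?_⟩
  · intro hc
    exact h i (Sum.inl.inj hc)
  · simp [rel]

lemma adj_gx (k : ℕ) (i j : ZMod 7) (c : Fin (k - 3)) (h : j = i ∨ j + 1 = i ∨ j + 3 = i) :
    (graphG k).Adj (Sum.inr (j, c)) (Sum.inl i) := by
  refine (SimpleGraph.fromRel_adj _ _ _).2 ⟨by simp, Or.inl ?_⟩
  simp only [rel]
  rcases h with h | h | h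
  · exact Or.inl h.symm
  · exact Or.inr (Or.inl h.symm)
  · exact Or.inr (Or.inr h.symm)

lemma adj_gg (k : ℕ) (i : ZMod 7) (c c' : Fin (k - 3)) (h : c ≠ c') :
    (graphG k).Adj (Sum.inr (i, c)) (Sum.inr (i, c')) := by
  refine (SimpleGraph.fromRel_adj _ _ _).2 ⟨?_, Or.inl ?_⟩
  · intro hc
    exact h (Prod.ext_iff.1 (Sum.inr.inj hc)).2
  · simp [rel]

theorem sysOf {k : ℕ} (hk : 4 ≤ k) {D : Vert k → Vert k → Prop}
    (hO : IsOrientation (graphG k) D) (hD : AtMostOne D k) {l : Vert k → ℕ} (hW : Wit D l)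
    (hlt : ∀ v, l v < k) (hne : ∀ u v, (graphG k).Adj u v → l u ≠ l v)
    (hup : ∀ u v, (graphG k).Adj u v → l v = l u + 1 → D u v) (m : ZMod 7) :
    Sys (k - 1) (fun i => l (Sum.inl (m + i))) (fun i c => ∃ j, l (Sum.inr (m + i, j)) = c)
      (fun i => Full (graphG k) l k (Sum.inl (m + i)))
      (fun i c => ∃ j, l (Sum.inr (m + i, j)) = c ∧ Full (graphG k) l k (Sum.inr (m + i, j))) := by
  have hnb : ∀ i j : ZMod 7, (j = i ∨ j + 1 = i ∨ j + 3 = i) →
      (m + j = m + i ∨ m + j + 1 = m + i ∨ m + j + 3 = m + i) := by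
    intro i j h
    rcases h with h | h | h
    · left; rw [h]
    · right; left; rw [← h, add_assoc]
    · right; right; rw [← h, add_assoc]
  constructor
  · intro i
    have := hne _ _ (adj_xx k (m + i))
    rw [add_assoc] at this
    exact this
  · rintro i ⟨j, hj⟩
    exact hne _ _ (adj_gx k (m + i) (m + i) j (Or.inl rfl)) hj
  · rintro i ⟨j, hj⟩
    exact hne _ _ (adj_gx k (m + (i + 1)) (m + i) j (Or.inr (Or.inl (by rw [add_assoc])))) hj
  · rintro i ⟨j, hj⟩
    exact hne _ _ (adj_gx k (m + (i + 3)) (m + i) j (Or.inr (Or.inr (by rw [add_assoc])))) hj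
  · intro i p q r hp hq hr hnp hnq hnr hpq hpr hqr c hc hcp hcq hcr
    by_contra hnc
    have hinj : Function.Injective (fun j : Fin (k - 3) => l (Sum.inr (m + i, j))) := by
      intro j j' hjj
      by_contra hcon
      exact hne _ _ (adj_gg k (m + i) j j' hcon) hjj
    have hsub : (Finset.univ.image (fun j : Fin (k - 3) => l (Sum.inr (m + i, j)))) ⊆
        ((((Finset.range k).erase p).erase q).erase r).erase c := by
      intro x hx
      rw [Finset.mem_image] at hx
      obtain ⟨j, -, hj⟩ := hx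
      have hxk : x < k := by rw [← hj]; exact hlt _
      simp only [Finset.mem_erase, Finset.mem_range]
      refine ⟨?_, ?_, ?_, ?_, hxk⟩
      · intro h; exact hnc ⟨j, by rw [← h]; exact hj⟩
      · intro h; exact hnr ⟨j, by rw [← h]; exact hj⟩
      · intro h; exact hnq ⟨j, by rw [← h]; exact hj⟩
      · intro h; exact hnp ⟨j, by rw [← h]; exact hj⟩
    have hcard := Finset.card_le_card hsub
    rw [Finset.card_image_of_injective _ hinj, Finset.card_univ, Fintype.card_fin] at hcard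
    rw [Finset.card_erase_of_mem, Finset.card_erase_of_mem, Finset.card_erase_of_mem,
      Finset.card_erase_of_mem, Finset.card_range] at hcard
    · omega
    · simp only [Finset.mem_range]; omega
    · simp only [Finset.mem_erase, Finset.mem_range]; exact ⟨Ne.symm hpq, by omega⟩
    · simp only [Finset.mem_erase, Finset.mem_range]
      exact ⟨Ne.symm hqr, Ne.symm hpr, by omega⟩
    · simp only [Finset.mem_erase, Finset.mem_range]
      exact ⟨hcr, hcq, hcp, by omega⟩
  · intro i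
    have := hlt (Sum.inl (m + i))
    omega
  · rintro i j s hij hF ha ⟨c, hc⟩
    refine ⟨c, hc, ?_⟩
    exact full_down hO hW hF (adj_gx k (m + i) (m + j) c (hnb i j hij)) (by rw [hc]; exact ha.symm)
  · intro i s hF ha h1
    refine full_down hO hW hF ?_ (by rw [h1, ha])
    rw [← add_assoc]
    exact (adj_xx k (m + i)).symm
  · intro i s hF ha h1
    refine full_down hO hW hF ?_ (by rw [h1, ha])
    rw [← add_assoc]
    exact (adj_xx k (m + i))
  · rintro j s ⟨c, hc, hF⟩ ⟨c', hc'⟩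
    refine ⟨c', hc', full_down hO hW hF (adj_gg k (m + j) c' c ?_) (by rw [hc, hc'])⟩
    intro h
    rw [h, hc] at hc'
    omega
  · rintro i j s hij ⟨c, hc, hF⟩ ha
    exact full_down hO hW hF (adj_gx k (m + i) (m + j) c (hnb i j hij)).symm
      (by rw [hc, ha])
  · rintro i j s ⟨c, hc, hF⟩ ⟨c', hc', hF'⟩
    have := full_unique hD hup hlt hF hF' (by rw [hc, hc'])
    exact add_left_cancel (Prod.ext_iff.1 (Sum.inr.inj this)).1
  · rintro i j s ⟨c, hc, hF⟩ hF' ha
    have := full_unique hD hup hlt hF hF' (by rw [hc]; exact ha.symm)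
    exact absurd this (by simp)
  · intro i j s hF hF' ha ha'
    have := full_unique hD hup hlt hF hF' (by rw [ha, ha'])
    exact add_left_cancel (Sum.inl.inj this)

/-- For every `k ≥ 4` (in particular for every `k ≥ 6`) the graph `G_k` has no orientation with
exactly one directed path on `k` vertices. -/
theorem result (k : ℕ) (hk : 4 ≤ k) :
    ¬ ∃ D : Vert k → Vert k → Prop, IsMinimalOrientation (graphG k) k D := by
  rintro ⟨D, hO, p0, -, hp0⟩
  have hD : AtMostOne D k := fun p q hp hq => (hp0 p hp).trans (hp0 q hq).symm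
  obtain ⟨l, hW, hlt, hne, hup⟩ := exists_label (by omega : 0 < k) hO hD
  have top_unique : ∀ u v, l u = k - 1 → l v = k - 1 → u = v := by
    intro u v hu hv
    exact full_unique hD hup hlt (full_top hO hW (by omega)) (full_top hO hW (by omega))
      (by rw [hu, hv])
  by_cases htop : ∃ v, l v = k - 1
  · obtain ⟨v, hv⟩ := htop
    have hvF : Full (graphG k) l k v := full_top hO hW (by omega)
    rcases v with m | ⟨m, c⟩
    · refine (sysOf hk hO hD hW hlt hne hup m).caseA (by omega) ?_ ?_ ?_ ?_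
      · simpa using hvF
      · simpa using hv
      · intro i hi h
        have := top_unique _ _ h hv
        apply hi
        have h2 := Sum.inl.inj this
        simpa using h2
      · rintro i ⟨j, hj⟩
        exact absurd (top_unique _ _ hj hv) (by simp)
    · refine (sysOf hk hO hD hW hlt hne hup m).caseB ?_ ?_ ?_
      · refine ⟨c, ?_, ?_⟩
        · simpa using hv
        · simpa using hvF
      · intro i h
        exact absurd (top_unique _ _ h hv) (by simp)
      · rintro i hi ⟨j, hj⟩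
        have := top_unique _ _ hj hv
        apply hi
        have h2 := (Prod.ext_iff.1 (Sum.inr.inj this)).1
        simpa using h2
  · refine (sysOf hk hO hD hW hlt hne hup 0).caseC ?_ ?_
    · intro i h
      exact htop ⟨_, h⟩
    · rintro i ⟨j, hj⟩
      exact htop ⟨_, hj⟩

end Pool.Agent.Results.MP_c69494_co.NoMinimalOrientation
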